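import Pool.Agent.Helper85.PHU.Gab
import Pool.Agent.Helper83.PHU.Tools

/-!
# MP_8bf717_co: the dual (minimax) lemma for gables with fixed kinks

For a direction (taken vertical), a roof kink `s` and a floor kink `t` there is one multiplier
`l ∈ [-1/2, 1/2]` such that the value of the four contact functional is at least `h*(K)`.
-/

set_option autoImplicit false

namespace Pool.Agent.Helper37.PH

open Pool.Agent.Helper27.PHU Pool.Agent.Helper61.PH Pool.Agent.Helper83.PHU MeasureTheory Set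

/-- `(u1, v1)` and `(u2, v2)` are the heights at `a` and at `b` of two lines above `K`, the first
of which is lower at `a` and the second at `b`. -/
structure Adm (K : Set (ℝ × ℝ)) (a b u1 v1 u2 v2 : ℝ) : Prop where
  hu : u1 ≤ u2
  hv : v2 ≤ v1
  h1 : ∀ z ∈ K, z.2 * (b - a) ≤ u1 * (b - z.1) + v1 * (z.1 - a)
  h2 : ∀ z ∈ K, z.2 * (b - a) ≤ u2 * (b - z.1) + v2 * (z.1 - a)

/-- The normalised area below the broken line with kink `s`. -/
noncomputable def ar (s u1 v1 u2 v2 : ℝ) : ℝ :=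
  (s - s ^ 2 / 2) * u1 + s ^ 2 / 2 * v1 + (1 - s) ^ 2 / 2 * u2 + (1 - s ^ 2) / 2 * v2

/-- mirror image -/
def mi (K : Set (ℝ × ℝ)) : Set (ℝ × ℝ) := (fun z : ℝ × ℝ => (z.1, -z.2)) '' K

theorem mem_mi {K : Set (ℝ × ℝ)} {z : ℝ × ℝ} : z ∈ mi K ↔ (z.1, -z.2) ∈ K := by
  constructor
  · rintro ⟨w, hw, rfl⟩
    simpa using hw
  · intro h
    exact ⟨(z.1, -z.2), h, by simp⟩

theorem Adm.comb {K : Set (ℝ × ℝ)} {a b u1 v1 u2 v2 u1' v1' u2' v2' : ℝ}
    (h : Adm K a b u1 v1 u2 v2) (h' : Adm K a b u1' v1' u2' v2') {x y : ℝ} (hx : 0 ≤ x)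
    (hy : 0 ≤ y) (hxy : x + y = 1) :
    Adm K a b (x * u1 + y * u1') (x * v1 + y * v1') (x * u2 + y * u2') (x * v2 + y * v2') where
  hu := add_le_add (mul_le_mul_of_nonneg_left h.hu hx) (mul_le_mul_of_nonneg_left h'.hu hy)
  hv := add_le_add (mul_le_mul_of_nonneg_left h.hv hx) (mul_le_mul_of_nonneg_left h'.hv hy)
  h1 := by
    intro z hz
    have e1 := mul_le_mul_of_nonneg_left (h.h1 z hz) hx
    have e2 := mul_le_mul_of_nonneg_left (h'.h1 z hz) hy
    have e3 : z.2 * (b - a) = x * (z.2 * (b - a)) + y * (z.2 * (b - a)) := by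
      rw [← add_mul, hxy, one_mul]
    linarith
  h2 := by
    intro z hz
    have e1 := mul_le_mul_of_nonneg_left (h.h2 z hz) hx
    have e2 := mul_le_mul_of_nonneg_left (h'.h2 z hz) hy
    have e3 : z.2 * (b - a) = x * (z.2 * (b - a)) + y * (z.2 * (b - a)) := by
      rw [← add_mul, hxy, one_mul]
    linarith

/-- a gable with two equal walls -/
theorem cov_of_adm {K : Set (ℝ × ℝ)} {a b : ℝ} (hab : a < b)
    (hx : ∀ z ∈ K, a ≤ z.1 ∧ z.1 ≤ b) (ha : ∃ z ∈ K, z.1 = a)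
    {s t : ℝ} (hs : 0 ≤ s) (hs1 : s ≤ 1) (ht : 0 ≤ t) (ht1 : t ≤ 1)
    {u1 v1 u2 v2 w1 x1 w2 x2 V : ℝ} (h : Adm K a b u1 v1 u2 v2)
    (h' : Adm (mi K) a b w1 x1 w2 x2) (heq : u1 + w1 = v2 + x2)
    (hV : (b - a) * (ar s u1 v1 u2 v2 + ar t w1 x1 w2 x2) ≤ V) : Cov K V := by
  have hW : 0 < b - a := by linarith
  have hWne : b - a ≠ 0 := hW.ne'
  -- the line with heights `u` at `a` and `v` at `b`
  have hline : ∀ u v x : ℝ, (u - (v - u) / (b - a) * a) + (v - u) / (b - a) * x =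
      (u * (b - x) + v * (x - a)) / (b - a) := by
    intro u v x
    field_simp
    ring
  have hA : ∀ u v : ℝ, (u - (v - u) / (b - a) * a) + (v - u) / (b - a) * a = u := by
    intro u v; ring
  have hB : ∀ u v : ℝ, (u - (v - u) / (b - a) * a) + (v - u) / (b - a) * b = v := by
    intro u v
    have : (v - u) / (b - a) * (b - a) = v - u := by field_simp
    linear_combination this
  refine Pool.Agent.Helper85.PHU.cov_gable (X0 := a) (X1 := b)
    (a1 := u1 - (v1 - u1) / (b - a) * a) (b1 := (v1 - u1) / (b - a))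
    (a2 := u2 - (v2 - u2) / (b - a) * a) (b2 := (v2 - u2) / (b - a))
    (c1 := -(w1 - (x1 - w1) / (b - a) * a)) (d1 := -((x1 - w1) / (b - a)))
    (c2 := -(w2 - (x2 - w2) / (b - a) * a)) (d2 := -((x2 - w2) / (b - a)))
    (p := a + s * (b - a)) (q := a + t * (b - a)) hab ?_ ?_ ?_ ?_ ?_ ?_ ?_ ?_ ?_ ?_ ?_ ?_
  · intro z hz
    have hz' : ((z.1, -z.2) : ℝ × ℝ) ∈ mi K := mem_mi.2 (by simpa using hz)
    have e1 := h.h1 z hz
    have e2 := h.h2 z hz
    have e3 := h'.h1 _ hz'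
    have e4 := h'.h2 _ hz'
    simp only at e3 e4
    refine ⟨(hx z hz).1, (hx z hz).2, ?_, ?_, ?_, ?_⟩
    · rw [hline, le_div_iff₀ hW]; exact e1
    · rw [hline, le_div_iff₀ hW]; exact e2
    · have := hline w1 x1 z.1
      have e5 : -z.2 ≤ (w1 * (b - z.1) + x1 * (z.1 - a)) / (b - a) := by
        rw [le_div_iff₀ hW]; exact e3
      linarith
    · have := hline w2 x2 z.1
      have e5 : -z.2 ≤ (w2 * (b - z.1) + x2 * (z.1 - a)) / (b - a) := by
        rw [le_div_iff₀ hW]; exact e4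
      linarith
  · rw [hA, hA]; exact h.hu
  · rw [hB, hB]; exact h.hv
  · have e1 := hA w1 x1
    have e2 := hA w2 x2
    have := h'.hu
    linarith
  · have e1 := hB w1 x1
    have e2 := hB w2 x2
    have := h'.hv
    linarith
  · have e1 := hA w1 x1
    have e2 := hB w2 x2
    have e3 := hA u1 v1
    have e4 := hB u2 v2
    linarith
  · obtain ⟨z, hz, hza⟩ := ha
    have hz' : ((z.1, -z.2) : ℝ × ℝ) ∈ mi K := mem_mi.2 (by simpa using hz)
    have e1 := h.h1 z hz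
    have e3 := h'.h1 _ hz'
    simp only at e3
    rw [hza] at e1 e3
    have e5 : 0 ≤ (u1 + w1) * (b - a) := by linarith
    have e6 : 0 ≤ u1 + w1 := nonneg_of_mul_nonneg_left e5 hW
    have e7 := hA w1 x1
    have e8 := hA u1 v1
    linarith
  · nlinarith
  · nlinarith
  · nlinarith
  · nlinarith
  · refine le_trans (le_of_eq ?_) hV
    simp only [ar]
    field_simp
    ring

/-- A configuration: two roof lines and two (mirrored) floor lines. -/
structure Cfg (K : Set (ℝ × ℝ)) (a b : ℝ) where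
  (u1 v1 u2 v2 w1 x1 w2 x2 : ℝ)
  top : Adm K a b u1 v1 u2 v2
  bot : Adm (mi K) a b w1 x1 w2 x2

/-- left wall minus right wall -/
def Cfg.D {K : Set (ℝ × ℝ)} {a b : ℝ} (C : Cfg K a b) : ℝ := (C.u1 + C.w1) - (C.v2 + C.x2)

/-- normalised area -/
noncomputable def Cfg.A {K : Set (ℝ × ℝ)} {a b : ℝ} (C : Cfg K a b) (s t : ℝ) : ℝ :=
  ar s C.u1 C.v1 C.u2 C.v2 + ar t C.w1 C.x1 C.w2 C.x2

/-- the minimax step -/
theorem minimax {K : Set (ℝ × ℝ)} {a b : ℝ} (hab : a < b)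
    (hx : ∀ z ∈ K, a ≤ z.1 ∧ z.1 ≤ b) (ha : ∃ z ∈ K, z.1 = a)
    {s t : ℝ} (hs : 0 ≤ s) (hs1 : s ≤ 1) (ht : 0 ≤ t) (ht1 : t ≤ 1) {c : ℝ}
    (h : ∀ l : ℝ, -(1 / 2) ≤ l → l ≤ 1 / 2 →
      ∃ C : Cfg K a b, (b - a) * (C.A s t + l * C.D) < c) : Cov K c := by
  have hW : 0 < b - a := by linarith
  set Sp : Set ℝ := {l | ∃ C : Cfg K a b, 0 ≤ C.D ∧ (b - a) * (C.A s t + l * C.D) < c} with hSp
  set Sm : Set ℝ := {l | ∃ C : Cfg K a b, C.D ≤ 0 ∧ (b - a) * (C.A s t + l * C.D) < c} with hSm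
  have hop : IsOpen Sp := by
    rw [isOpen_iff_forall_mem_open]
    rintro l ⟨C, hC, hl⟩
    refine ⟨{l | (b - a) * (C.A s t + l * C.D) < c}, fun m hm => ⟨C, hC, hm⟩, ?_, hl⟩
    exact isOpen_lt (by fun_prop) continuous_const
  have hom : IsOpen Sm := by
    rw [isOpen_iff_forall_mem_open]
    rintro l ⟨C, hC, hl⟩
    refine ⟨{l | (b - a) * (C.A s t + l * C.D) < c}, fun m hm => ⟨C, hC, hm⟩, ?_, hl⟩
    exact isOpen_lt (by fun_prop) continuous_const
  have hcov : Icc (-(1 / 2) : ℝ) (1 / 2) ⊆ Sp ∪ Sm := by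
    rintro l ⟨h1, h2⟩
    obtain ⟨C, hC⟩ := h l h1 h2
    rcases le_total 0 C.D with h3 | h3
    · left; exact ⟨C, h3, hC⟩
    · right; exact ⟨C, h3, hC⟩
  -- the right end
  have hm : (1 / 2 : ℝ) ∈ Sm := by
    obtain ⟨C, hC⟩ := h (1 / 2) (by norm_num) le_rfl
    set M : ℝ := |C.D| with hM
    have hM0 : 0 ≤ M := abs_nonneg _
    refine ⟨{ u1 := C.u1, v1 := C.v1 + M, u2 := C.u2, v2 := C.v2 + M, w1 := C.w1, x1 := C.x1,
              w2 := C.w2, x2 := C.x2, top := ?_, bot := C.bot }, ?_, ?_⟩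
    · refine ⟨C.top.hu, add_le_add C.top.hv le_rfl, ?_, ?_⟩
      · intro z hz
        have e1 := C.top.h1 z hz
        have e2 : 0 ≤ M * (z.1 - a) := mul_nonneg hM0 (by linarith [(hx z hz).1])
        linarith
      · intro z hz
        have e1 := C.top.h2 z hz
        have e2 : 0 ≤ M * (z.1 - a) := mul_nonneg hM0 (by linarith [(hx z hz).1])
        linarith
    · have : C.D ≤ M := le_abs_self _
      simp only [Cfg.D] at this ⊢
      linarith
    · refine lt_of_le_of_lt (le_of_eq ?_) hC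
      simp only [Cfg.A, Cfg.D, ar]
      ring
  have hp : (-(1 / 2) : ℝ) ∈ Sp := by
    obtain ⟨C, hC⟩ := h (-(1 / 2)) le_rfl (by norm_num)
    set M : ℝ := |C.D| with hM
    have hM0 : 0 ≤ M := abs_nonneg _
    refine ⟨{ u1 := C.u1 + M, v1 := C.v1, u2 := C.u2 + M, v2 := C.v2, w1 := C.w1, x1 := C.x1,
              w2 := C.w2, x2 := C.x2, top := ?_, bot := C.bot }, ?_, ?_⟩
    · refine ⟨add_le_add C.top.hu le_rfl, C.top.hv, ?_, ?_⟩
      · intro z hz
        have e1 := C.top.h1 z hz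
        have e2 : 0 ≤ M * (b - z.1) := mul_nonneg hM0 (by linarith [(hx z hz).2])
        linarith
      · intro z hz
        have e1 := C.top.h2 z hz
        have e2 : 0 ≤ M * (b - z.1) := mul_nonneg hM0 (by linarith [(hx z hz).2])
        linarith
    · have : -C.D ≤ M := neg_le_abs _
      simp only [Cfg.D] at this ⊢
      linarith
    · refine lt_of_le_of_lt (le_of_eq ?_) hC
      simp only [Cfg.A, Cfg.D, ar]
      ring
  obtain ⟨l, -, ⟨C, hC, hCl⟩, C', hC', hCl'⟩ := (isPreconnected_Icc (a := (-(1 / 2) : ℝ))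
    (b := 1 / 2)) Sp Sm hop hom hcov ⟨_, ⟨le_rfl, by norm_num⟩, hp⟩
    ⟨_, ⟨by norm_num, le_rfl⟩, hm⟩
  -- the convex combination with equal walls
  obtain ⟨x, y, hx0, hy0, hxy, hD⟩ : ∃ x y : ℝ, 0 ≤ x ∧ 0 ≤ y ∧ x + y = 1 ∧
      x * C.D + y * C'.D = 0 := by
    rcases hC.eq_or_lt with h0 | h0
    · exact ⟨1, 0, by norm_num, le_rfl, by norm_num, by rw [← h0]; ring⟩
    · have hpos : 0 < C.D - C'.D := by linarith
      refine ⟨-C'.D / (C.D - C'.D), C.D / (C.D - C'.D), div_nonneg (by linarith) hpos.le,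
        div_nonneg hC hpos.le, ?_, ?_⟩
      · field_simp
        ring
      · field_simp
        ring
  refine cov_of_adm hab hx ha hs hs1 ht ht1 (C.top.comb C'.top hx0 hy0 hxy)
    (C.bot.comb C'.bot hx0 hy0 hxy) ?_ ?_
  · simp only [Cfg.D] at hD
    linear_combination hD
  · have e1 := mul_le_mul_of_nonneg_left hCl.le hx0
    have e2 := mul_le_mul_of_nonneg_left hCl'.le hy0
    have e3 : x * c + y * c = c := by rw [← add_mul, hxy, one_mul]
    refine le_trans (le_of_eq ?_) ((add_le_add e1 e2).trans e3.le)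
    have e4 : (b - a) * (x * C.A s t + y * C'.A s t) =
        x * ((b - a) * (C.A s t + l * C.D)) + y * ((b - a) * (C'.A s t + l * C'.D)) := by
      linear_combination (-(b - a) * l) * hD
    rw [← e4]
    simp only [Cfg.A, ar]
    ring

/-! ## Values -/

/-- `v` is a value of the functional with kink `s` and multiplier `l` on points of `K`: two
contact points if these are in the right order, one otherwise. -/
def Val (K : Set (ℝ × ℝ)) (a b s l v : ℝ) : Prop :=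
  (s ^ 2 ≤ (s + l) * (1 - 2 * l) ∧ ∃ p ∈ K, ∃ q ∈ K,
    p.1 = a + (b - a) * (s ^ 2 / (2 * (s + l))) ∧
    q.1 = b - (b - a) * ((1 - s) ^ 2 / (2 * (1 - s - l))) ∧
    v = (s + l) * p.2 + (1 - s - l) * q.2) ∨
  ((s + l) * (1 - 2 * l) < s ^ 2 ∧ ∃ p ∈ K, p.1 = a + (b - a) * (1 / 2 - l) ∧ v = p.2)

/-- the top point over an abscissa and almost tangent lines -/
theorem exists_line {K : Set (ℝ × ℝ)} (hc : Convex ℝ K) (hk : IsCompact K) {a b : ℝ}
    (hab : a < b) (hx : ∀ z ∈ K, a ≤ z.1 ∧ z.1 ≤ b) (ha : ∃ z ∈ K, z.1 = a)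
    (hb : ∃ z ∈ K, z.1 = b) {x : ℝ} (h0 : a ≤ x) (h1 : x ≤ b) :
    ∃ p ∈ K, p.1 = x ∧ ∀ δ : ℝ, 0 < δ → ∃ u v : ℝ,
      (∀ z ∈ K, z.2 * (b - a) ≤ u * (b - z.1) + v * (z.1 - a)) ∧
      u * (b - x) + v * (x - a) ≤ (p.2 + δ) * (b - a) := by
  have hW : 0 < b - a := by linarith
  obtain ⟨za, hza, hza1⟩ := ha
  obtain ⟨zb, hzb, hzb1⟩ := hb
  -- the slice
  have hsl : IsCompact (K ∩ {z : ℝ × ℝ | z.1 = x}) :=
    hk.inter_right (isClosed_eq continuous_fst continuous_const)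
  have hne : (K ∩ {z : ℝ × ℝ | z.1 = x}).Nonempty := by
    refine ⟨((b - x) / (b - a)) • za + ((x - a) / (b - a)) • zb, ?_, ?_⟩
    · refine hc hza hzb (div_nonneg (by linarith) hW.le) (div_nonneg (by linarith) hW.le) ?_
      field_simp
      ring
    · show ((b - x) / (b - a)) * za.1 + ((x - a) / (b - a)) * zb.1 = x
      rw [hza1, hzb1]
      field_simp
      ring
  obtain ⟨p, ⟨hpK, hpx⟩, hpmax⟩ := hsl.exists_isMaxOn hne continuous_snd.continuousOn
  have hpx : p.1 = x := hpx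
  refine ⟨p, hpK, hpx, ?_⟩
  intro δ hδ
  have hnot : ((x, p.2 + δ) : ℝ × ℝ) ∉ K := by
    intro hcon
    have : (x, p.2 + δ).2 ≤ p.2 := hpmax ⟨hcon, rfl⟩
    simp only at this
    linarith
  obtain ⟨φ, γ, h2, h3⟩ := geometric_hahn_banach_closed_point hc hk.isClosed hnot
  set α := φ (1, 0) with hα
  set β := φ (0, 1) with hβ
  have hφ : ∀ z : ℝ × ℝ, φ z = α * z.1 + β * z.2 := by
    intro z
    have : z = z.1 • ((1 : ℝ), (0 : ℝ)) + z.2 • ((0 : ℝ), (1 : ℝ)) := by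
      ext <;> simp
    conv_lhs => rw [this]
    rw [map_add, map_smul, map_smul, smul_eq_mul, smul_eq_mul]
    ring
  have hβ0 : 0 < β := by
    have e1 := h2 p hpK
    rw [hφ, hpx] at e1
    rw [hφ] at h3
    simp only at h3
    have : 0 < β * δ := by linarith
    exact (mul_pos_iff_of_pos_right hδ).1 this
  refine ⟨(γ - α * a) / β, (γ - α * b) / β, ?_, ?_⟩
  · intro z hz
    have e1 := h2 z hz
    rw [hφ] at e1
    have e2 : (γ - α * a) / β * (b - z.1) + (γ - α * b) / β * (z.1 - a) =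
        (γ - α * z.1) / β * (b - a) := by
      field_simp
      ring
    rw [e2]
    apply mul_le_mul_of_nonneg_right _ hW.le
    rw [le_div_iff₀ hβ0]
    linarith
  · have e2 : (γ - α * a) / β * (b - x) + (γ - α * b) / β * (x - a) =
        (γ - α * x) / β * (b - a) := by
      field_simp
      ring
    rw [e2]
    apply mul_le_mul_of_nonneg_right _ hW.le
    rw [div_le_iff₀ hβ0]
    rw [hφ] at h3
    simp only at h3
    linarith

/-- Two lines above `K` can be put into the right order. -/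
theorem order_lines {K : Set (ℝ × ℝ)} {a b : ℝ} {u1 v1 u2 v2 : ℝ}
    (h1 : ∀ z ∈ K, z.2 * (b - a) ≤ u1 * (b - z.1) + v1 * (z.1 - a))
    (h2 : ∀ z ∈ K, z.2 * (b - a) ≤ u2 * (b - z.1) + v2 * (z.1 - a))
    {x1 x2 w1 w2 : ℝ} (hw1 : 0 ≤ w1) (hw2 : 0 ≤ w2) (hx1 : a ≤ x1) (hx12 : x1 ≤ x2)
    (hx2 : x2 ≤ b) :
    ∃ u1' v1' u2' v2', Adm K a b u1' v1' u2' v2' ∧
      w1 * (u1' * (b - x1) + v1' * (x1 - a)) + w2 * (u2' * (b - x2) + v2' * (x2 - a)) ≤
      w1 * (u1 * (b - x1) + v1 * (x1 - a)) + w2 * (u2 * (b - x2) + v2 * (x2 - a)) := by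
  have p1 : 0 ≤ x1 - a := by linarith
  have p2 : 0 ≤ x2 - a := by linarith
  have p3 : 0 ≤ b - x1 := by linarith
  have p4 : 0 ≤ b - x2 := by linarith
  rcases le_or_gt u1 u2 with hu | hu
  · rcases le_or_gt v2 v1 with hv | hv
    · exact ⟨u1, v1, u2, v2, ⟨hu, hv, h1, h2⟩, le_rfl⟩
    · refine ⟨u1, v1, u1, v1, ⟨le_rfl, le_rfl, h1, h1⟩, ?_⟩
      have e1 := mul_le_mul_of_nonneg_right hu p4
      have e2 := mul_le_mul_of_nonneg_right hv.le p2
      have e3 := mul_le_mul_of_nonneg_left (add_le_add e1 e2) hw2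
      linarith
  · rcases le_or_gt v2 v1 with hv | hv
    · refine ⟨u2, v2, u2, v2, ⟨le_rfl, le_rfl, h2, h2⟩, ?_⟩
      have e1 := mul_le_mul_of_nonneg_right hu.le p3
      have e2 := mul_le_mul_of_nonneg_right hv p1
      have e3 := mul_le_mul_of_nonneg_left (add_le_add e1 e2) hw1
      linarith
    · -- the lines cross; the first minus the second is decreasing
      have hdec : (u1 * (b - x2) + v1 * (x2 - a)) - (u2 * (b - x2) + v2 * (x2 - a)) ≤
          (u1 * (b - x1) + v1 * (x1 - a)) - (u2 * (b - x1) + v2 * (x1 - a)) := by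
        have e1 : 0 ≤ (u1 - u2) * (x2 - x1) := mul_nonneg (by linarith) (by linarith)
        have e2 : 0 ≤ (v2 - v1) * (x2 - x1) := mul_nonneg (by linarith) (by linarith)
        linarith
      rcases le_or_gt (u1 * (b - x1) + v1 * (x1 - a)) (u2 * (b - x1) + v2 * (x1 - a)) with hc | hc
      · refine ⟨u1, v1, u1, v1, ⟨le_rfl, le_rfl, h1, h1⟩, ?_⟩
        have e1 : u1 * (b - x2) + v1 * (x2 - a) ≤ u2 * (b - x2) + v2 * (x2 - a) := by linarith
        have e3 := mul_le_mul_of_nonneg_left e1 hw2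
        linarith
      · rcases le_or_gt (u1 * (b - x2) + v1 * (x2 - a)) (u2 * (b - x2) + v2 * (x2 - a)) with
          hd | hd
        · refine ⟨u2, v2, u1, v1, ⟨hu.le, hv.le, h2, h1⟩, ?_⟩
          have e1 := mul_le_mul_of_nonneg_left hc.le hw1
          have e2 := mul_le_mul_of_nonneg_left hd hw2
          linarith
        · refine ⟨u2, v2, u2, v2, ⟨le_rfl, le_rfl, h2, h2⟩, ?_⟩
          have e1 := mul_le_mul_of_nonneg_left hc.le hw1
          linarith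

/-- the regime of two contacts is symmetric -/
theorem regime_iff (s l : ℝ) : s ^ 2 ≤ (s + l) * (1 - 2 * l) ↔
    (1 - s) ^ 2 ≤ (1 - s - l) * (1 + 2 * l) := by
  constructor <;> intro h <;> nlinarith

theorem exists_adm {K : Set (ℝ × ℝ)} (hc : Convex ℝ K) (hk : IsCompact K) {a b : ℝ}
    (hab : a < b) (hx : ∀ z ∈ K, a ≤ z.1 ∧ z.1 ≤ b) (ha : ∃ z ∈ K, z.1 = a)
    (hb : ∃ z ∈ K, z.1 = b) {s l : ℝ} (hs : 0 < s) (hs1 : s < 1) (hl0 : -(1 / 2) ≤ l)
    (hl1 : l ≤ 1 / 2) :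
    ∃ v, Val K a b s l v ∧ ∀ δ : ℝ, 0 < δ → ∃ u1 v1 u2 v2, Adm K a b u1 v1 u2 v2 ∧
      ar s u1 v1 u2 v2 + l * (u1 - v2) ≤ v + δ := by
  have hW : 0 < b - a := by linarith
  rcases le_or_gt (s ^ 2) ((s + l) * (1 - 2 * l)) with hreg | hreg
  · -- two contacts
    have hreg' := (regime_iff s l).1 hreg
    have hs2 : 0 < s ^ 2 := by positivity
    have hs3 : 0 < (1 - s) ^ 2 := by
      have : 0 < 1 - s := by linarith
      positivity
    have hw1 : 0 < s + l := by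
      by_contra hcon
      push Not at hcon
      nlinarith [mul_nonneg (by linarith : 0 ≤ -(s + l)) (by linarith : 0 ≤ 1 - 2 * l)]
    have hw2 : 0 < 1 - s - l := by
      by_contra hcon
      push Not at hcon
      nlinarith [mul_nonneg (by linarith : 0 ≤ -(1 - s - l)) (by linarith : 0 ≤ 1 + 2 * l)]
    have hc1 : s ^ 2 / (2 * (s + l)) ≤ 1 / 2 - l := by
      rw [div_le_iff₀ (by linarith)]
      linarith
    have hc1' : 0 < s ^ 2 / (2 * (s + l)) := div_pos hs2 (by linarith)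
    have hc2 : (1 - s) ^ 2 / (2 * (1 - s - l)) ≤ 1 / 2 + l := by
      rw [div_le_iff₀ (by linarith)]
      linarith
    have hc2' : 0 < (1 - s) ^ 2 / (2 * (1 - s - l)) := div_pos hs3 (by linarith)
    set c1 : ℝ := s ^ 2 / (2 * (s + l)) with hc1d
    set c2 : ℝ := (1 - s) ^ 2 / (2 * (1 - s - l)) with hc2d
    have f1 : c1 * (2 * (s + l)) = s ^ 2 := by rw [hc1d]; field_simp
    have f2 : c2 * (2 * (1 - s - l)) = (1 - s) ^ 2 := by rw [hc2d]; field_simp
    have m1 : (b - a) * c1 ≤ (b - a) * (1 / 2 - l) := mul_le_mul_of_nonneg_left hc1 hW.le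
    have m2 : (b - a) * c2 ≤ (b - a) * (1 / 2 + l) := mul_le_mul_of_nonneg_left hc2 hW.le
    have m1' : 0 < (b - a) * c1 := mul_pos hW hc1'
    have m2' : 0 < (b - a) * c2 := mul_pos hW hc2'
    have m3 : (b - a) * (1 / 2 - l) + (b - a) * (1 / 2 + l) = b - a := by ring
    obtain ⟨p, hp, hp1, hpl⟩ := exists_line hc hk hab hx ha hb
      (x := a + (b - a) * c1) (by linarith) (by linarith)
    obtain ⟨q, hq, hq1, hql⟩ := exists_line hc hk hab hx ha hb
      (x := b - (b - a) * c2) (by linarith) (by linarith)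
    refine ⟨(s + l) * p.2 + (1 - s - l) * q.2, Or.inl ⟨hreg, p, hp, q, hq, hp1, hq1, rfl⟩, ?_⟩
    intro δ hδ
    obtain ⟨u1, v1, g1, g2⟩ := hpl δ hδ
    obtain ⟨u2, v2, g3, g4⟩ := hql δ hδ
    obtain ⟨u1', v1', u2', v2', hadm, hle⟩ := order_lines g1 g3 hw1.le hw2.le
      (x1 := a + (b - a) * c1) (x2 := b - (b - a) * c2) (by linarith) (by linarith) (by linarith)
    refine ⟨u1', v1', u2', v2', hadm, ?_⟩
    have e1 := mul_le_mul_of_nonneg_left g2 hw1.le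
    have e2 := mul_le_mul_of_nonneg_left g4 hw2.le
    have e3 : (b - a) * (ar s u1' v1' u2' v2' + l * (u1' - v2')) =
        (s + l) * (u1' * (b - (a + (b - a) * c1)) + v1' * (a + (b - a) * c1 - a)) +
        (1 - s - l) * (u2' * (b - (b - (b - a) * c2)) + v2' * (b - (b - a) * c2 - a)) := by
      simp only [ar]
      linear_combination ((b - a) / 2 * (v1' - u1')) * (-f1) +
        ((b - a) / 2 * (u2' - v2')) * (-f2)
    have e4 : (b - a) * (ar s u1' v1' u2' v2' + l * (u1' - v2')) ≤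
        (b - a) * ((s + l) * p.2 + (1 - s - l) * q.2 + δ) := by
      rw [e3]
      have e5 : (b - a) * ((s + l) * p.2 + (1 - s - l) * q.2 + δ) =
          (s + l) * ((p.2 + δ) * (b - a)) + (1 - s - l) * ((q.2 + δ) * (b - a)) := by ring
      rw [e5]
      linarith
    exact le_of_mul_le_mul_left e4 hW
  · -- one contact
    have m1 : 0 ≤ (b - a) * (1 / 2 - l) := mul_nonneg hW.le (by linarith)
    have m2 : 0 ≤ (b - a) * (1 / 2 + l) := mul_nonneg hW.le (by linarith)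
    have m3 : (b - a) * (1 / 2 - l) + (b - a) * (1 / 2 + l) = b - a := by ring
    obtain ⟨p, hp, hp1, hpl⟩ := exists_line hc hk hab hx ha hb
      (x := a + (b - a) * (1 / 2 - l)) (by linarith) (by linarith)
    refine ⟨p.2, Or.inr ⟨hreg, p, hp, hp1, rfl⟩, ?_⟩
    intro δ hδ
    obtain ⟨u, v, g1, g2⟩ := hpl δ hδ
    refine ⟨u, v, u, v, ⟨le_rfl, le_rfl, g1, g1⟩, ?_⟩
    have e3 : (b - a) * (ar s u v u v + l * (u - v)) =
        u * (b - (a + (b - a) * (1 / 2 - l))) + v * (a + (b - a) * (1 / 2 - l) - a) := by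
      simp only [ar]
      ring
    have e4 : (b - a) * (ar s u v u v + l * (u - v)) ≤ (b - a) * (p.2 + δ) := by
      rw [e3]
      linarith
    exact le_of_mul_le_mul_left e4 hW

theorem Val.of_mi {K : Set (ℝ × ℝ)} {a b s l v : ℝ} (h : Val (mi K) a b s l v) :
    Val K a b s l (-v) := by
  rcases h with ⟨h, p, hp, q, hq, h1, h2, h3⟩ | ⟨h, p, hp, h1, h2⟩
  · refine Or.inl ⟨h, _, mem_mi.1 hp, _, mem_mi.1 hq, h1, h2, ?_⟩
    rw [h3]
    ring
  · refine Or.inr ⟨h, _, mem_mi.1 hp, h1, ?_⟩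
    rw [h2]

/-- **The dual lemma.** If the gables with vertical walls do not show `h*(K) ≤ c` then for every
roof kink `s` and every floor kink `t` there is a multiplier `l` for which the four contact
functional is at least `c`. -/
theorem dual {K : Set (ℝ × ℝ)} (hK : IsBody K) {a b : ℝ} (hab : a < b)
    (hx : ∀ z ∈ K, a ≤ z.1 ∧ z.1 ≤ b) (ha : ∃ z ∈ K, z.1 = a) (hb : ∃ z ∈ K, z.1 = b)
    {s t : ℝ} (hs : 0 < s) (hs1 : s < 1) (ht : 0 < t) (ht1 : t < 1) {c : ℝ} (hc : ¬ Cov K c) :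
    ∃ l v w, -(1 / 2) ≤ l ∧ l ≤ 1 / 2 ∧ Val K a b s l v ∧ Val K a b t l w ∧
      c ≤ (b - a) * (v - w) := by
  have hW : 0 < b - a := by linarith
  by_contra hcon
  apply hc
  refine minimax hab hx ha hs.le hs1.le ht.le ht1.le fun l hl0 hl1 => ?_
  have hcm : Convex ℝ (mi K) := by
    have : mi K = (LinearMap.prodMap (LinearMap.id : ℝ →ₗ[ℝ] ℝ) (-LinearMap.id)) '' K := by
      ext z
      simp [mi, LinearMap.prodMap]
    rw [this]
    exact hK.convex.linear_image _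
  have hkm : IsCompact (mi K) := hK.compact.image (by fun_prop)
  have hxm : ∀ z ∈ mi K, a ≤ z.1 ∧ z.1 ≤ b := fun z hz => hx (z.1, -z.2) (mem_mi.1 hz)
  have ham : ∃ z ∈ mi K, z.1 = a := by
    obtain ⟨z, hz, h⟩ := ha
    exact ⟨(z.1, -z.2), ⟨z, hz, rfl⟩, h⟩
  have hbm : ∃ z ∈ mi K, z.1 = b := by
    obtain ⟨z, hz, h⟩ := hb
    exact ⟨(z.1, -z.2), ⟨z, hz, rfl⟩, h⟩
  obtain ⟨v, hv, hv'⟩ := exists_adm hK.convex hK.compact hab hx ha hb hs hs1 hl0 hl1
  obtain ⟨w, hw, hw'⟩ := exists_adm hcm hkm hab hxm ham hbm ht ht1 hl0 hl1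
  have hlt : (b - a) * (v + w) < c := by
    by_contra h
    push Not at h
    exact hcon ⟨l, v, -w, hl0, hl1, hv, hw.of_mi, by rw [sub_neg_eq_add]; exact h⟩
  set δ : ℝ := (c - (b - a) * (v + w)) / (3 * (b - a)) with hδ
  have hδ0 : 0 < δ := div_pos (by linarith) (by linarith)
  have hδ1 : 3 * ((b - a) * δ) = c - (b - a) * (v + w) := by
    rw [hδ]
    field_simp
  have hδ2 : 0 < (b - a) * δ := mul_pos hW hδ0
  obtain ⟨u1, v1, u2, v2, h1, h2⟩ := hv' δ hδ0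
  obtain ⟨w1, x1, w2, x2, h3, h4⟩ := hw' δ hδ0
  refine ⟨⟨u1, v1, u2, v2, w1, x1, w2, x2, h1, h3⟩, ?_⟩
  have e1 := mul_le_mul_of_nonneg_left (add_le_add h2 h4) hW.le
  simp only [Cfg.A, Cfg.D]
  have e2 : (b - a) * (ar s u1 v1 u2 v2 + ar t w1 x1 w2 x2 + l * (u1 + w1 - (v2 + x2))) =
      (b - a) * (ar s u1 v1 u2 v2 + l * (u1 - v2) + (ar t w1 x1 w2 x2 + l * (w1 - x2))) := by
    ring
  rw [e2]
  refine lt_of_le_of_lt e1 ?_
  have e3 : (b - a) * (v + δ + (w + δ)) = (b - a) * (v + w) + 2 * ((b - a) * δ) := by ring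
  rw [e3]
  linarith

/-! ## Arbitrary directions -/

/-- As `Val`, for the coordinates `X`, `Y`. -/
def ValD (K : Set (ℝ × ℝ)) (X Y : ℝ × ℝ → ℝ) (a b s l v : ℝ) : Prop :=
  (s ^ 2 ≤ (s + l) * (1 - 2 * l) ∧ ∃ p ∈ K, ∃ q ∈ K,
    X p = a + (b - a) * (s ^ 2 / (2 * (s + l))) ∧
    X q = b - (b - a) * ((1 - s) ^ 2 / (2 * (1 - s - l))) ∧
    v = (s + l) * Y p + (1 - s - l) * Y q) ∨
  ((s + l) * (1 - 2 * l) < s ^ 2 ∧ ∃ p ∈ K, X p = a + (b - a) * (1 / 2 - l) ∧ v = Y p)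

/-- **The dual lemma** for the direction `{X = const}`, in the coordinates
`X = α x + β y`, `Y = γ x + δ y`. -/
theorem dual_dir {K : Set (ℝ × ℝ)} (hK : IsBody K) {α β γ δ : ℝ} (hD : 0 < α * δ - β * γ)
    {a b : ℝ} (hab : a < b)
    (hx : ∀ z ∈ K, a ≤ α * z.1 + β * z.2 ∧ α * z.1 + β * z.2 ≤ b)
    (ha : ∃ z ∈ K, α * z.1 + β * z.2 = a) (hb : ∃ z ∈ K, α * z.1 + β * z.2 = b)
    {s t : ℝ} (hs : 0 < s) (hs1 : s < 1) (ht : 0 < t) (ht1 : t < 1) {c : ℝ} (hc : ¬ Cov K c) :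
    ∃ l v w, -(1 / 2) ≤ l ∧ l ≤ 1 / 2 ∧
      ValD K (fun z => α * z.1 + β * z.2) (fun z => γ * z.1 + δ * z.2) a b s l v ∧
      ValD K (fun z => α * z.1 + β * z.2) (fun z => γ * z.1 + δ * z.2) a b t l w ∧
      (α * δ - β * γ) * c ≤ (b - a) * (v - w) := by
  set D := α * δ - β * γ with hDd
  set L0 : (ℝ × ℝ) →ₗ[ℝ] (ℝ × ℝ) :=
    Matrix.toLin (Module.Basis.finTwoProd ℝ) (Module.Basis.finTwoProd ℝ) !![α, β; γ, δ] with hL0
  have hL0a : ∀ z : ℝ × ℝ, L0 z = (α * z.1 + β * z.2, γ * z.1 + δ * z.2) := by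
    intro z
    rw [hL0, Matrix.toLin_finTwoProd_apply]
  have hdet : LinearMap.det L0 = D := by
    rw [hL0, LinearMap.det_toLin, Matrix.det_fin_two_of]
  have hu : IsUnit (LinearMap.det L0) := by
    rw [hdet]
    exact hD.ne'.isUnit
  set L : (ℝ × ℝ) ≃ₗ[ℝ] (ℝ × ℝ) := LinearEquiv.ofIsUnitDet (v := Module.Basis.finTwoProd ℝ)
    (v' := Module.Basis.finTwoProd ℝ) (f := L0) (by
      rw [LinearMap.det_toMatrix]
      exact hu) with hL
  have hLa : ∀ z : ℝ × ℝ, L z = (α * z.1 + β * z.2, γ * z.1 + δ * z.2) := by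
    intro z
    rw [← hL0a]
    rfl
  have hdetL : |LinearMap.det (L : (ℝ × ℝ) →ₗ[ℝ] (ℝ × ℝ))| = D := by
    have : (L : (ℝ × ℝ) →ₗ[ℝ] (ℝ × ℝ)) = L0 := by
      rfl
    rw [this, hdet, abs_of_pos hD]
  have hA : ∀ z : ℝ × ℝ, affE L 0 z = (α * z.1 + β * z.2, γ * z.1 + δ * z.2) := by
    intro z
    rw [affE_apply, sub_zero, hLa]
  have hnc : ¬ Cov (affE L 0 '' K) (D * c) := by
    intro h
    apply hc
    apply Cov_affE L 0
    rw [hdetL]
    exact h
  obtain ⟨l, v, w, h1, h2, h3, h4, h5⟩ := dual (body_image hK (affE L 0)) hab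
    (by
      rintro z ⟨y, hy, rfl⟩
      rw [hA]
      exact hx y hy)
    (by
      obtain ⟨z, hz, h⟩ := ha
      exact ⟨_, ⟨z, hz, rfl⟩, by rw [hA]; exact h⟩)
    (by
      obtain ⟨z, hz, h⟩ := hb
      exact ⟨_, ⟨z, hz, rfl⟩, by rw [hA]; exact h⟩) hs hs1 ht ht1 hnc
  have tr : ∀ r x : ℝ, Val (affE L 0 '' K) a b r l x →
      ValD K (fun z => α * z.1 + β * z.2) (fun z => γ * z.1 + δ * z.2) a b r l x := by
    intro r x h
    rcases h with ⟨h, p, ⟨p', hp', rfl⟩, q, ⟨q', hq', rfl⟩, g1, g2, g3⟩ |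
      ⟨h, p, ⟨p', hp', rfl⟩, g1, g2⟩
    · rw [hA] at g1 g2 g3
      rw [hA] at g3
      exact Or.inl ⟨h, p', hp', q', hq', g1, g2, g3⟩
    · rw [hA] at g1 g2
      exact Or.inr ⟨h, p', hp', g1, g2⟩
  exact ⟨l, v, w, h1, h2, tr _ _ h3, tr _ _ h4, h5⟩

end Pool.Agent.Helper37.PH
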