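import Mathlib

/-!
# Circumscribed p-hexagons (MP_8bf717_co): definitions
-/

open MeasureTheory Set

set_option autoImplicit false

namespace Pool.Agent.Helper37.PH

/-- The sides of the closed hexagon with vertices `v 0, …, v 5`. -/
def side (v : Fin 6 → ℝ × ℝ) (i : Fin 6) : Set (ℝ × ℝ) := segment ℝ (v i) (v (i + 1))

/-- `v 0, …, v 5` are, in cyclic order, the vertices of a simple closed polygon with six sides:
no three consecutive vertices are collinear (so consecutive sides meet only at their common
vertex), and sides that are not consecutive are disjoint. The polygon need not be convex. -/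
structure IsHexagon (v : Fin 6 → ℝ × ℝ) : Prop where
  corner : ∀ i, ¬ Collinear ℝ {v i, v (i + 1), v (i + 2)}
  disj : ∀ i j, j ≠ i → j ≠ i + 1 → i ≠ j + 1 → Disjoint (side v i) (side v j)

/-- Some pair of opposite sides is parallel and of equal length. -/
def HasEqualPair (v : Fin 6 → ℝ × ℝ) : Prop :=
  ∃ i, v (i + 1) - v i = v (i + 4) - v (i + 3) ∨ v (i + 1) - v i = v (i + 3) - v (i + 4)

/-- `P` is a p-hexagon, as a closed region: the compact set with nonempty interior whose
boundary is a simple closed hexagon with a pair of parallel opposite sides of equal length. -/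
def IsPHexagon (P : Set (ℝ × ℝ)) : Prop :=
  ∃ v : Fin 6 → ℝ × ℝ, IsHexagon v ∧ HasEqualPair v ∧
    IsCompact P ∧ (interior P).Nonempty ∧ frontier P = ⋃ i, side v i

/-- Convex bodies of the plane. -/
structure IsBody (K : Set (ℝ × ℝ)) : Prop where
  convex : Convex ℝ K
  compact : IsCompact K
  interior_nonempty : (interior K).Nonempty

/-- `h*(K)`: the infimum of the areas of the p-hexagons containing `K`. -/
noncomputable def hstar (K : Set (ℝ × ℝ)) : ENNReal :=
  ⨅ (P : Set (ℝ × ℝ)) (_ : IsPHexagon P ∧ K ⊆ P), volume P

/-- `H`: the supremum of `h*(K)` over the convex bodies of area `1`. -/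
noncomputable def H : ENNReal :=
  ⨆ (K : Set (ℝ × ℝ)) (_ : IsBody K ∧ volume K = 1), hstar K

end Pool.Agent.Helper37.PH
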